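import Mathlib

/-!
# Nearly independent subsequences of pairwise orthogonal signs (helper38)

`x m a` (`m, a : ℕ`) are random signs, for each `m` pairwise orthogonal in `a` for the probability
`μ m`; `E m` are events with `μ m (E m) > 0`. There is one sequence of indices `i 0 < i 1 < ...`, of explicit growth, such
that for every `m` the signs `x m (i k)`, `k ≥ m`, are conditionally on `E m` nearly independent and
fair.
-/

set_option autoImplicit false

open Finset MeasureTheory Filter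

namespace Pool.Agent.Helper38K9.SC

variable {Ω : Type*} [MeasurableSpace Ω]

/-- bounded measurable functions -/
def BMs (g : Ω → ℝ) : Prop := Measurable g ∧ ∃ C : ℝ, ∀ ω, |g ω| ≤ C

lemma BMs.int {g : Ω → ℝ} (h : BMs g) (μ : Measure Ω) [IsFiniteMeasure μ] : Integrable g μ := by
  obtain ⟨C, hC⟩ := h.2
  exact Integrable.of_bound h.1.aestronglyMeasurable C
    (Eventually.of_forall fun ω => by rw [Real.norm_eq_abs]; exact hC ω)

lemma BMs.mul {g h : Ω → ℝ} (hg : BMs g) (hh : BMs h) : BMs (fun ω => g ω * h ω) := by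
  obtain ⟨C, hC⟩ := hg.2
  obtain ⟨D, hD⟩ := hh.2
  refine ⟨hg.1.mul hh.1, C * D, fun ω => ?_⟩
  rw [abs_mul]
  exact mul_le_mul (hC ω) (hD ω) (abs_nonneg _) ((abs_nonneg _).trans (hC ω))

lemma BMs.add {g h : Ω → ℝ} (hg : BMs g) (hh : BMs h) : BMs (fun ω => g ω + h ω) := by
  obtain ⟨C, hC⟩ := hg.2
  obtain ⟨D, hD⟩ := hh.2
  exact ⟨hg.1.add hh.1, C + D, fun ω => (abs_add_le _ _).trans (add_le_add (hC ω) (hD ω))⟩

lemma BMs.const (c : ℝ) : BMs (fun _ : Ω => c) := ⟨measurable_const, |c|, fun _ => le_rfl⟩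

lemma BMs.sum {ι : Type*} (s : Finset ι) (g : ι → Ω → ℝ) (h : ∀ i ∈ s, BMs (g i)) :
    BMs (fun ω => ∑ i ∈ s, g i ω) := by
  classical
  induction s using Finset.induction_on with
  | empty => simpa using BMs.const (Ω := Ω) 0
  | insert a s ha ih =>
    simp only [sum_insert ha]
    exact (h a (mem_insert_self a s)).add (ih fun i hi => h i (mem_insert_of_mem hi))

lemma BMs.prod {ι : Type*} (s : Finset ι) (g : ι → Ω → ℝ) (h : ∀ i ∈ s, BMs (g i)) :
    BMs (fun ω => ∏ i ∈ s, g i ω) := by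
  classical
  induction s using Finset.induction_on with
  | empty => simpa using BMs.const (Ω := Ω) 1
  | insert a s ha ih =>
    simp only [prod_insert ha]
    exact (h a (mem_insert_self a s)).mul (ih fun i hi => h i (mem_insert_of_mem hi))

lemma BMs.ind {E : Set Ω} (hE : MeasurableSet E) : BMs (E.indicator (fun _ => (1 : ℝ))) := by
  refine ⟨measurable_const.indicator hE, 1, fun ω => ?_⟩
  unfold Set.indicator
  split_ifs <;> simp

/-- Bessel's inequality -/
theorem bessel (μ : Measure Ω) [IsProbabilityMeasure μ] (C : Finset ℕ) (g : Ω → ℝ) (hg : BMs g)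
    (u : ℕ → Ω → ℝ) (hu : ∀ a, Measurable (u a)) (hu1 : ∀ a ω, |u a ω| ≤ 1)
    (ho : ∀ a b, a ≠ b → ∫ ω, u a ω * u b ω ∂μ = 0) :
    ∑ a ∈ C, (∫ ω, g ω * u a ω ∂μ) ^ 2 ≤ ∫ ω, g ω ^ 2 ∂μ := by
  classical
  have hub : ∀ a, BMs (u a) := fun a => ⟨hu a, 1, hu1 a⟩
  obtain ⟨c, hc⟩ : ∃ c : ℕ → ℝ, c = fun a => ∫ ω, g ω * u a ω ∂μ := ⟨_, rfl⟩
  have hca : ∀ a, ∫ ω, g ω * u a ω ∂μ = c a := fun a => by rw [hc]
  obtain ⟨h, hh⟩ : ∃ h : Ω → ℝ, h = fun ω => ∑ a ∈ C, c a * u a ω := ⟨_, rfl⟩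
  have hhb : BMs h := by
    rw [hh]
    exact BMs.sum C _ fun a _ => (BMs.const (c a)).mul (hub a)
  have e1 : ∫ ω, g ω * h ω ∂μ = ∑ a ∈ C, c a ^ 2 := by
    have : ∀ ω, g ω * h ω = ∑ a ∈ C, c a * (g ω * u a ω) := fun ω => by
      rw [hh]
      simp only [mul_sum]
      exact sum_congr rfl fun a _ => by ring
    simp only [this]
    rw [integral_finsetSum C fun a _ => ((BMs.const (c a)).mul (hg.mul (hub a))).int μ]
    refine sum_congr rfl fun a _ => ?_
    rw [integral_const_mul, hca]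
    ring
  have e2 : ∫ ω, h ω * h ω ∂μ ≤ ∑ a ∈ C, c a ^ 2 := by
    have h1 : ∀ ω, h ω * h ω = ∑ a ∈ C, ∑ b ∈ C, c a * c b * (u a ω * u b ω) := fun ω => by
      rw [hh]
      simp only
      rw [sum_mul_sum]
      exact sum_congr rfl fun a _ => sum_congr rfl fun b _ => by ring
    simp only [h1]
    rw [integral_finsetSum C fun a _ => (BMs.sum C _ fun b _ =>
      (BMs.const (c a * c b)).mul ((hub a).mul (hub b))).int μ]
    refine sum_le_sum fun a ha => ?_
    rw [integral_finsetSum C fun b _ => ((BMs.const (c a * c b)).mul ((hub a).mul (hub b))).int μ]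
    have h2 : ∀ b ∈ C, ∫ ω, c a * c b * (u a ω * u b ω) ∂μ =
        if b = a then c a ^ 2 * ∫ ω, u a ω * u a ω ∂μ else 0 := by
      intro b _
      rw [integral_const_mul]
      by_cases hb : b = a
      · rw [if_pos hb, hb]; ring
      · rw [if_neg hb, ho a b (Ne.symm hb), mul_zero]
    rw [sum_congr rfl h2, sum_ite_eq' C a, if_pos ha]
    have h3 : ∫ ω, u a ω * u a ω ∂μ ≤ 1 := by
      have h4 : ∫ ω, u a ω * u a ω ∂μ ≤ ∫ _, (1 : ℝ) ∂μ := by
        refine integral_mono (((hub a).mul (hub a)).int μ) (integrable_const _) fun ω => ?_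
        show u a ω * u a ω ≤ 1
        rw [← abs_mul_abs_self]
        exact mul_le_one₀ (hu1 a ω) (abs_nonneg _) (hu1 a ω)
      simpa using h4
    nlinarith [sq_nonneg (c a)]
  have e3 : 0 ≤ ∫ ω, (g ω - h ω) ^ 2 ∂μ := integral_nonneg fun ω => sq_nonneg _
  have e4 : ∫ ω, (g ω - h ω) ^ 2 ∂μ = ∫ ω, g ω ^ 2 ∂μ - 2 * ∫ ω, g ω * h ω ∂μ +
      ∫ ω, h ω * h ω ∂μ := by
    have i1 : Integrable (fun ω => g ω ^ 2) μ := by
      have := (hg.mul hg).int μ
      simpa only [sq] using this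
    have i2 : Integrable (fun ω => 2 * (g ω * h ω)) μ := ((BMs.const 2).mul (hg.mul hhb)).int μ
    have i3 : Integrable (fun ω => h ω * h ω) μ := (hhb.mul hhb).int μ
    have i4 : ∫ ω, (g ω ^ 2 - 2 * (g ω * h ω)) ∂μ = ∫ ω, g ω ^ 2 ∂μ - 2 * ∫ ω, g ω * h ω ∂μ := by
      rw [integral_sub i1 i2, integral_const_mul]
    have i5 : Integrable (fun ω => g ω ^ 2 - 2 * (g ω * h ω)) μ := i1.sub i2
    rw [← i4, ← integral_add i5 i3]
    congr 1
    funext ω
    ring
  simp only [hca]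
  rw [e4, e1] at e3
  linarith

/-- the product of the signs with indices in `T` -/
noncomputable def X (u : ℕ → Ω → ℝ) (p : ℕ → ℕ) (T : Finset ℕ) (ω : Ω) : ℝ := ∏ t ∈ T, u (p t) ω

lemma X_bm {u : ℕ → Ω → ℝ} (hu : ∀ a, Measurable (u a)) (hu1 : ∀ a ω, |u a ω| ≤ 1) (p : ℕ → ℕ)
    (T : Finset ℕ) : BMs (X u p T) := BMs.prod T _ fun t _ => ⟨hu (p t), 1, hu1 (p t)⟩

omit [MeasurableSpace Ω] in
lemma X_le {u : ℕ → Ω → ℝ} (hu1 : ∀ a ω, |u a ω| ≤ 1) (p : ℕ → ℕ) (T : Finset ℕ) (ω : Ω) :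
    |X u p T ω| ≤ 1 := by
  unfold X
  rw [abs_prod]
  exact prod_le_one (fun _ _ => abs_nonneg _) fun t _ => hu1 _ _

/-- the sum over all subsets `T` of `B` of the correlations of `E`, `X_T` and the sign `a` -/
noncomputable def Q (μ : Measure Ω) (E : Set Ω) (u : ℕ → Ω → ℝ) (p : ℕ → ℕ) (B : Finset ℕ)
    (a : ℕ) : ℝ := ∑ T ∈ B.powerset, |∫ ω in E, X u p T ω * u a ω ∂μ|

/-- few indices are correlated with given events -/
theorem few (μ : Measure Ω) [IsProbabilityMeasure μ] {E : Set Ω} (hE : MeasurableSet E)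
    (u : ℕ → Ω → ℝ) (hu : ∀ a, Measurable (u a)) (hu1 : ∀ a ω, |u a ω| ≤ 1)
    (ho : ∀ a b, a ≠ b → ∫ ω, u a ω * u b ω ∂μ = 0) (p : ℕ → ℕ) (B C : Finset ℕ) (η : ℝ) (hη : 0 < η)
    (hμ : 0 < μ.real E) :
    ((C.filter (fun a => η * μ.real E < Q μ E u p B a)).card : ℝ) ≤
      4 ^ B.card / (η ^ 2 * μ.real E) := by
  classical
  have h1 : ∑ a ∈ C, Q μ E u p B a ^ 2 ≤ 4 ^ B.card * μ.real E := by
    have h2 : ∀ a ∈ C, Q μ E u p B a ^ 2 ≤
        2 ^ B.card * ∑ T ∈ B.powerset, (∫ ω in E, X u p T ω * u a ω ∂μ) ^ 2 := by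
      intro a _
      unfold Q
      have h3 := sq_sum_le_card_mul_sum_sq (s := B.powerset)
        (f := fun T => |∫ ω in E, X u p T ω * u a ω ∂μ|)
      rw [card_powerset] at h3
      simp only [sq_abs] at h3
      push_cast at h3
      exact h3
    refine (sum_le_sum h2).trans ?_
    rw [← mul_sum, sum_comm]
    have h4 : ∀ T ∈ B.powerset, ∑ a ∈ C, (∫ ω in E, X u p T ω * u a ω ∂μ) ^ 2 ≤ μ.real E := by
      intro T _
      have h5 := bessel μ C (fun ω => E.indicator (fun _ => (1 : ℝ)) ω * X u p T ω)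
        ((BMs.ind hE).mul (X_bm hu hu1 p T)) u hu hu1 ho
      have h6 : ∀ a, ∫ ω, E.indicator (fun _ => (1 : ℝ)) ω * X u p T ω * u a ω ∂μ =
          ∫ ω in E, X u p T ω * u a ω ∂μ := by
        intro a
        rw [← integral_indicator hE]
        congr 1
        funext ω
        unfold Set.indicator
        split_ifs <;> ring
      simp only [h6] at h5
      refine h5.trans ?_
      have h7 : ∫ ω, (E.indicator (fun _ => (1 : ℝ)) ω * X u p T ω) ^ 2 ∂μ ≤
          ∫ ω, E.indicator (fun _ => (1 : ℝ)) ω ∂μ := by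
        refine integral_mono ?_ ((BMs.ind hE).int μ) fun ω => ?_
        · have := (((BMs.ind hE).mul (X_bm hu hu1 p T)).mul
            ((BMs.ind hE).mul (X_bm hu hu1 p T))).int μ
          simpa only [sq] using this
        · show (E.indicator (fun _ => (1 : ℝ)) ω * X u p T ω) ^ 2 ≤ E.indicator (fun _ => (1 : ℝ)) ω
          unfold Set.indicator
          split_ifs
          · rw [one_mul, ← sq_abs]
            exact pow_le_one₀ (abs_nonneg _) (X_le hu1 p T ω)
          · simp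
      rw [integral_indicator_const (1 : ℝ) hE] at h7
      simpa using h7
    calc (2 : ℝ) ^ B.card * ∑ T ∈ B.powerset, ∑ a ∈ C, (∫ ω in E, X u p T ω * u a ω ∂μ) ^ 2
        ≤ 2 ^ B.card * ∑ T ∈ B.powerset, μ.real E :=
          mul_le_mul_of_nonneg_left (sum_le_sum h4) (by positivity)
      _ = 4 ^ B.card * μ.real E := by
          rw [sum_const, card_powerset, nsmul_eq_mul]
          push_cast
          rw [← mul_assoc, ← mul_pow]
          norm_num
  have h2 : ((C.filter (fun a => η * μ.real E < Q μ E u p B a)).card : ℝ) * (η * μ.real E) ^ 2 ≤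
      4 ^ B.card * μ.real E := by
    refine le_trans ?_ h1
    calc ((C.filter (fun a => η * μ.real E < Q μ E u p B a)).card : ℝ) * (η * μ.real E) ^ 2 =
        ∑ a ∈ C.filter (fun a => η * μ.real E < Q μ E u p B a), (η * μ.real E) ^ 2 := by
          rw [sum_const, nsmul_eq_mul]
      _ ≤ ∑ a ∈ C.filter (fun a => η * μ.real E < Q μ E u p B a), Q μ E u p B a ^ 2 := by
          refine sum_le_sum fun a ha => ?_
          rw [mem_filter] at ha
          exact pow_le_pow_left₀ (by positivity) ha.2.le 2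
      _ ≤ ∑ a ∈ C, Q μ E u p B a ^ 2 :=
          sum_le_sum_of_subset_of_nonneg (filter_subset _ _) fun _ _ _ => sq_nonneg _
  rw [le_div_iff₀ (by positivity)]
  have h3 : ((C.filter (fun a => η * μ.real E < Q μ E u p B a)).card : ℝ) * (η ^ 2 * μ.real E) *
      μ.real E ≤ 4 ^ B.card * μ.real E := by
    refine le_trans (le_of_eq ?_) h2
    ring
  exact le_of_mul_le_mul_right h3 hμ

/-- dependent choices along the natural numbers -/
theorem seq_exists (P : ℕ → (ℕ → ℕ) → ℕ → Prop)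
    (hP : ∀ k p p' a, (∀ j < k, p j = p' j) → P k p a → P k p' a)
    (h : ∀ k p, (∀ j < k, P j p (p j)) → ∃ a, P k p a) : ∃ i : ℕ → ℕ, ∀ k, P k i (i k) := by
  classical
  obtain ⟨s, hs0, hs1⟩ : ∃ s : ℕ → (ℕ → ℕ), s 0 = (fun _ => 0) ∧
      ∀ k, s (k + 1) = Function.update (s k) k (if h : ∃ a, P k (s k) a then h.choose else 0) :=
    ⟨fun n => Nat.rec (fun _ => 0)
      (fun k f => Function.update f k (if h : ∃ a, P k f a then h.choose else 0)) n, rfl,
      fun k => rfl⟩
  have h1 : ∀ n j, j < n → s n j = s (j + 1) j := by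
    intro n
    induction n with
    | zero => intro j hj; omega
    | succ n ih =>
      intro j hj
      rcases Nat.lt_succ_iff_lt_or_eq.1 hj with h2 | h2
      · rw [hs1 n, Function.update_of_ne (by omega), ih j h2]
      · rw [h2]
  refine ⟨fun k => s (k + 1) k, fun k => ?_⟩
  induction k using Nat.strong_induction_on with
  | _ k ih =>
    have h2 : ∀ j < k, P j (s k) (s k j) := by
      intro j hj
      rw [h1 k j hj]
      refine hP j _ _ _ (fun l hl => ?_) (ih j hj)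
      exact (h1 k l (by omega)).symm
    have h3 := h k (s k) h2
    have h4 : P k (s k) (s (k + 1) k) := by
      rw [hs1 k, Function.update_self, dif_pos h3]
      exact h3.choose_spec
    exact hP k _ _ _ (fun j hj => h1 k j hj) h4

/-- the number of indices which are bad for the `m`-th event at stage `m + l` -/
noncomputable def K (s δ : ℝ) (l : ℕ) : ℝ := 4 ^ l * (((l : ℝ) + 1) * (l + 2)) ^ 2 / (s * δ ^ 2)

lemma K_pos {s δ : ℝ} (hs : 0 < s) (hδ : 0 < δ) (l : ℕ) : 0 < K s δ l := by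
  unfold K
  positivity

lemma K_zero {s δ : ℝ} (hs : 0 < s) (hs1 : s ≤ 1) (hδ : 0 < δ) (hδ1 : δ ≤ 1) : 4 ≤ K s δ 0 := by
  unfold K
  rw [le_div_iff₀ (by positivity)]
  have h1 : δ ^ 2 ≤ 1 := pow_le_one₀ hδ.le hδ1
  have h2 : s * δ ^ 2 ≤ 1 := mul_le_one₀ hs1 (by positivity) h1
  norm_num
  linarith

lemma K_succ {s δ : ℝ} (hs : 0 < s) (hδ : 0 < δ) (l : ℕ) : 4 * K s δ l ≤ K s δ (l + 1) := by
  unfold K
  rw [← mul_div_assoc]
  apply div_le_div_of_nonneg_right _ (by positivity)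
  rw [pow_succ (4 : ℝ) l]
  push_cast
  have h1 : (((l : ℝ) + 1) * (l + 2)) ^ 2 ≤ (((l : ℝ) + 1 + 1) * (l + 1 + 2)) ^ 2 := by
    apply pow_le_pow_left₀ (by positivity)
    apply mul_le_mul <;> first | positivity | linarith
  have h2 : (0 : ℝ) < 4 ^ l := by positivity
  have h3 := mul_le_mul_of_nonneg_left h1 h2.le
  calc 4 * ((4 : ℝ) ^ l * (((l : ℝ) + 1) * (l + 2)) ^ 2) ≤
      4 * ((4 : ℝ) ^ l * (((l : ℝ) + 1 + 1) * (l + 1 + 2)) ^ 2) := by linarith
    _ = (4 : ℝ) ^ l * 4 * (((l : ℝ) + 1 + 1) * (l + 1 + 2)) ^ 2 := by ring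

/-- the growth condition -/
lemma growth (s δ : ℕ → ℝ) (hs : ∀ m, 0 < s m) (hs1 : ∀ m, s m ≤ 1) (hδ : ∀ m, 0 < δ m)
    (hδ1 : ∀ m, δ m ≤ 1) (i : ℕ → ℕ) (h0 : (i 0 : ℝ) ≤ K (s 0) (δ 0) 0)
    (hi : ∀ k, (i (k + 1) : ℝ) ≤ i k + 1 + ∑ m ∈ range (k + 2), K (s m) (δ m) (k + 1 - m)) (k : ℕ) :
    (i k : ℝ) + 1 ≤ ∑ m ∈ range (k + 1), 4 * K (s m) (δ m) (k - m) := by
  induction k with
  | zero =>
    rw [sum_range_one]
    have h1 := K_zero (hs 0) (hs1 0) (hδ 0) (hδ1 0)
    have h2 : K (s 0) (δ 0) (0 - 0) = K (s 0) (δ 0) 0 := rfl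
    rw [h2]
    linarith
  | succ k ih =>
    have h1 := hi k
    rw [sum_range_succ, Nat.sub_self] at h1
    rw [show k + 1 + 1 = k + 2 from rfl, sum_range_succ, Nat.sub_self]
    have h2 : ∑ m ∈ range (k + 1), (K (s m) (δ m) (k + 1 - m) + 4 * K (s m) (δ m) (k - m)) ≤
        ∑ m ∈ range (k + 1), 4 * K (s m) (δ m) (k + 1 - m) := by
      refine sum_le_sum fun m hm => ?_
      rw [mem_range] at hm
      have h3 := K_succ (hs m) (hδ m) (k - m)
      rw [show k - m + 1 = k + 1 - m by omega] at h3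
      have h4 := K_pos (hs m) (hδ m) (k + 1 - m)
      linarith
    rw [sum_add_distrib] at h2
    have h5 := K_zero (hs (k + 1)) (hs1 (k + 1)) (hδ (k + 1)) (hδ1 (k + 1))
    linarith

/-- **Nearly independent subsequences.** -/
theorem coins (μ : ℕ → Measure Ω) [∀ m, IsProbabilityMeasure (μ m)] (x : ℕ → ℕ → Ω → ℝ)
    (hx : ∀ m a, Measurable (x m a)) (hx1 : ∀ m a ω, |x m a ω| ≤ 1)
    (hx2 : ∀ m a, ∀ᵐ ω ∂(μ m), x m a ω = 1 ∨ x m a ω = -1)
    (ho : ∀ m a b, a ≠ b → ∫ ω, x m a ω * x m b ω ∂(μ m) = 0)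
    (E : ℕ → Set Ω) (hE : ∀ m, MeasurableSet (E m)) (hμ : ∀ m, 0 < (μ m).real (E m))
    (δ : ℕ → ℝ) (hδ : ∀ m, 0 < δ m) (hδ1 : ∀ m, δ m ≤ 1) :
    ∃ i : ℕ → ℕ, StrictMono i ∧
      (∀ k, (i k : ℝ) + 1 ≤ ∑ m ∈ range (k + 1), 4 * K ((μ m).real (E m)) (δ m) (k - m)) ∧
      ∀ (m : ℕ) (F : Finset ℕ), (∀ k ∈ F, m ≤ k) → ∀ e : ℕ → ℝ, (∀ k, e k = 1 ∨ e k = -1) →
        |2 ^ F.card * (μ m).real (E m ∩ {ω | ∀ k ∈ F, x m (i k) ω = e k}) - (μ m).real (E m)| ≤
          δ m * (μ m).real (E m) := by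
  classical
  -- the choice
  obtain ⟨η, hη⟩ : ∃ η : ℕ → ℕ → ℝ, η = fun (m l : ℕ) => δ m / (((l : ℝ) + 1) * (l + 2)) := ⟨_, rfl⟩
  have hη0 : ∀ m l, 0 < η m l := fun m l => by
    rw [hη]
    have := hδ m
    positivity
  obtain ⟨i, hi⟩ := seq_exists (fun k p a => (∀ j, j + 1 = k → p j < a ∧
      (a : ℝ) ≤ p j + 1 + ∑ m ∈ range (k + 1), K ((μ m).real (E m)) (δ m) (k - m)) ∧
      (k = 0 → (a : ℝ) ≤ K ((μ 0).real (E 0)) (δ 0) 0) ∧
      ∀ m ≤ k, Q (μ m) (E m) (x m) p (Ico m k) a ≤ η m (k - m) * (μ m).real (E m)) (by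
    intro k p p' a hpp' h
    refine ⟨fun j hj => ?_, h.2.1, fun m hm => ?_⟩
    · rw [← hpp' j (by omega)]
      exact h.1 j hj
    · have h1 := h.2.2 m hm
      refine le_trans (le_of_eq ?_) h1
      unfold Q
      refine sum_congr rfl fun T hT => ?_
      have h2 : ∀ ω, X (x m) p' T ω = X (x m) p T ω := fun ω => by
        unfold X
        refine prod_congr rfl fun t ht => ?_
        have h3 := mem_Ico.1 (mem_powerset.1 hT ht)
        rw [hpp' t h3.2]
      simp only [h2]) (by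
    intro k p _
    -- the candidates
    obtain ⟨b, hb⟩ : ∃ b : ℕ, ∀ j, j + 1 = k → b = p j + 1 := by
      rcases Nat.eq_zero_or_pos k with h | h
      · exact ⟨0, fun j hj => by omega⟩
      · exact ⟨p (k - 1) + 1, fun j hj => by rw [← hj]; rfl⟩
    obtain ⟨b, hb, hb0⟩ : ∃ b : ℕ, (∀ j, j + 1 = k → b = p j + 1) ∧ (k = 0 → b = 0) := by
      rcases Nat.eq_zero_or_pos k with h | h
      · exact ⟨0, fun j hj => by omega, fun _ => rfl⟩
      · exact ⟨b, hb, fun h' => by omega⟩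
    obtain ⟨M, hM⟩ : ∃ M : ℝ, M = ∑ m ∈ range (k + 1), K ((μ m).real (E m)) (δ m) (k - m) := ⟨_, rfl⟩
    have hM0 : 0 ≤ M := by
      rw [hM]
      exact sum_nonneg fun m _ => (K_pos (hμ m) (hδ m) _).le
    obtain ⟨C, hC⟩ : ∃ C : Finset ℕ, C = Icc b (b + ⌊M⌋₊) := ⟨_, rfl⟩
    have hCc : M < C.card := by
      rw [hC, Nat.card_Icc, show b + ⌊M⌋₊ + 1 - b = ⌊M⌋₊ + 1 by omega]
      push_cast
      exact Nat.lt_floor_add_one M
    obtain ⟨a, haC, ha⟩ : ∃ a ∈ C, ∀ m ≤ k, Q (μ m) (E m) (x m) p (Ico m k) a ≤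
        η m (k - m) * (μ m).real (E m) := by
      by_contra hcon
      push Not at hcon
      have h1 : C ⊆ (range (k + 1)).biUnion fun m =>
          C.filter (fun a => η m (k - m) * (μ m).real (E m) < Q (μ m) (E m) (x m) p (Ico m k) a) := by
        intro a ha
        obtain ⟨m, hm, hlt⟩ := hcon a ha
        rw [mem_biUnion]
        exact ⟨m, mem_range.2 (by omega), mem_filter.2 ⟨ha, hlt⟩⟩
      have h2 := (card_le_card h1).trans card_biUnion_le
      have h3 : (C.card : ℝ) ≤ ∑ m ∈ range (k + 1), ((C.filter (fun a =>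
          η m (k - m) * (μ m).real (E m) < Q (μ m) (E m) (x m) p (Ico m k) a)).card : ℝ) := by
        exact_mod_cast h2
      have h4 : ∑ m ∈ range (k + 1), ((C.filter (fun a =>
          η m (k - m) * (μ m).real (E m) < Q (μ m) (E m) (x m) p (Ico m k) a)).card : ℝ) ≤ M := by
        rw [hM]
        refine sum_le_sum fun m hm => ?_
        rw [mem_range] at hm
        refine (few (μ m) (hE m) (x m) (hx m) (hx1 m) (ho m) p (Ico m k) C (η m (k - m)) (hη0 _ _)
          (hμ m)).trans (le_of_eq ?_)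
        rw [Nat.card_Ico]
        unfold K
        rw [hη]
        have h5 := hδ m
        have h6 := hμ m
        field_simp
      linarith
    rw [hC, mem_Icc] at haC
    have haM : (a : ℝ) ≤ b + M := by
      have h1 : (a : ℝ) ≤ ((b + ⌊M⌋₊ : ℕ) : ℝ) := by exact_mod_cast haC.2
      push_cast at h1
      have h2 := Nat.floor_le hM0
      linarith
    refine ⟨a, fun j hj => ⟨?_, ?_⟩, fun hk => ?_, ha⟩
    · have := hb j hj
      omega
    · have h1 := hb j hj
      rw [h1] at haM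
      push_cast at haM
      rw [hM] at haM
      exact haM
    · have h1 := hb0 hk
      subst hk
      rw [h1, hM, zero_add, sum_range_one] at haM
      simpa using haM)
  have hmono : StrictMono i := strictMono_nat_of_lt_succ fun k => ((hi (k + 1)).1 k rfl).1
  have hμ1 : ∀ m, (μ m).real (E m) ≤ 1 := fun m => measureReal_le_one
  refine ⟨i, hmono, growth (fun m => (μ m).real (E m)) δ hμ hμ1 hδ hδ1 i ((hi 0).2.1 rfl)
    fun k => ((hi (k + 1)).1 k rfl).2, ?_⟩
  intro m F hF e he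
  -- the sum of all correlations
  have hD : ∀ n, ∑ T ∈ ((Ico m (m + n)).powerset).erase ∅, |∫ ω in E m, X (x m) i T ω ∂(μ m)| ≤
      (1 - 1 / ((n : ℝ) + 1)) * (δ m * (μ m).real (E m)) := by
    intro n
    induction n with
    | zero => simp
    | succ n ih =>
      have h1 := (hi (m + n)).2.2 m (by omega)
      rw [show m + n - m = n by omega] at h1
      have h2 : Ico m (m + (n + 1)) = insert (m + n) (Ico m (m + n)) := by
        ext a
        rw [mem_insert, mem_Ico, mem_Ico]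
        omega
      have h3 : (m + n) ∉ Ico m (m + n) := by simp
      have h4 : ((Ico m (m + (n + 1))).powerset).erase ∅ = (((Ico m (m + n)).powerset).erase ∅) ∪
          ((Ico m (m + n)).powerset).image (insert (m + n)) := by
        rw [h2, powerset_insert]
        ext T
        simp only [mem_erase, mem_union, mem_image, mem_powerset]
        constructor
        · rintro ⟨h5, h6 | h6⟩
          · exact Or.inl ⟨h5, h6⟩
          · exact Or.inr h6
        · rintro (⟨h5, h6⟩ | ⟨U, h5, h6⟩)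
          · exact ⟨h5, Or.inl h6⟩
          · refine ⟨?_, Or.inr ⟨U, h5, h6⟩⟩
            rw [← h6]
            exact (insert_nonempty _ _).ne_empty
      have h5 : ∑ T ∈ ((Ico m (m + n)).powerset).image (insert (m + n)),
          |∫ ω in E m, X (x m) i T ω ∂(μ m)| = Q (μ m) (E m) (x m) i (Ico m (m + n)) (i (m + n)) := by
        rw [sum_image]
        · unfold Q
          refine sum_congr rfl fun T hT => ?_
          have h6 : (m + n) ∉ T := fun h => h3 (mem_powerset.1 hT h)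
          congr 1
          congr 1
          funext ω
          unfold X
          rw [prod_insert h6, mul_comm]
        · intro T hT U hU hTU
          have h6 : (m + n) ∉ T := fun h => h3 (mem_powerset.1 hT h)
          have h7 : (m + n) ∉ U := fun h => h3 (mem_powerset.1 hU h)
          have h8 := congrArg (fun Z => Z.erase (m + n)) hTU
          simpa [erase_insert h6, erase_insert h7] using h8
      have h6 : Disjoint (((Ico m (m + n)).powerset).erase ∅)
          (((Ico m (m + n)).powerset).image (insert (m + n))) := by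
        rw [disjoint_left]
        intro T hT hT'
        obtain ⟨U, _, hU⟩ := mem_image.1 hT'
        have h7 := mem_powerset.1 (mem_of_mem_erase hT)
        rw [← hU] at h7
        exact h3 (h7 (mem_insert_self _ _))
      rw [h4, sum_union h6, h5]
      refine (add_le_add ih h1).trans (le_of_eq ?_)
      rw [hη]
      push_cast
      have h7 : (n : ℝ) + 1 ≠ 0 := by positivity
      have h8 : (n : ℝ) + 2 ≠ 0 := by positivity
      have h9 : (n : ℝ) + 1 + 1 ≠ 0 := by positivity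
      field_simp
      ring
  -- the expansion
  obtain ⟨P, hP⟩ : ∃ P : Set Ω, P = {ω | ∀ k ∈ F, x m (i k) ω = e k} := ⟨_, rfl⟩
  rw [← hP]
  have hPm : MeasurableSet P := by
    have h1 : P = ⋂ k ∈ F, {ω | x m (i k) ω = e k} := by
      rw [hP]
      ext ω
      simp
    rw [h1]
    exact Finset.measurableSet_biInter F fun k _ => (hx m (i k)) (measurableSet_singleton (e k))
  have h1 : ∀ᵐ ω ∂(μ m), ∀ k, x m (i k) ω = 1 ∨ x m (i k) ω = -1 := ae_all_iff.2 fun k => hx2 m (i k)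
  have h2 : (2 : ℝ) ^ F.card * (μ m).real (E m ∩ P) =
      ∑ T ∈ F.powerset, (∏ k ∈ T, e k) * ∫ ω in E m, X (x m) i T ω ∂(μ m) := by
    have h3 : (2 : ℝ) ^ F.card * (μ m).real (E m ∩ P) =
        ∫ ω in E m, (2 : ℝ) ^ F.card * P.indicator (fun _ => (1 : ℝ)) ω ∂(μ m) := by
      rw [integral_const_mul, integral_indicator_const (1 : ℝ) hPm, smul_eq_mul, mul_one,
        measureReal_restrict_apply hPm, Set.inter_comm]
    rw [h3]
    have h4 : ∫ ω in E m, (2 : ℝ) ^ F.card * P.indicator (fun _ => (1 : ℝ)) ω ∂(μ m) =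
        ∫ ω in E m, ∑ T ∈ F.powerset, (∏ k ∈ T, e k) * X (x m) i T ω ∂(μ m) := by
      apply integral_congr_ae
      filter_upwards [ae_restrict_of_ae h1] with ω hω
      have h5 : ∑ T ∈ F.powerset, (∏ k ∈ T, e k) * X (x m) i T ω =
          ∏ k ∈ F, (1 + e k * x m (i k) ω) := by
        rw [prod_one_add]
        refine sum_congr rfl fun T _ => ?_
        unfold X
        rw [prod_mul_distrib]
      rw [h5]
      by_cases hω' : ω ∈ P
      · rw [Set.indicator_of_mem hω', mul_one, ← prod_const]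
        refine prod_congr rfl fun k hk => ?_
        rw [hP] at hω'
        rw [hω' k hk]
        rcases he k with h6 | h6 <;> rw [h6] <;> norm_num
      · rw [Set.indicator_of_notMem hω', mul_zero]
        symm
        rw [hP] at hω'
        simp only [Set.mem_ofPred_eq, not_forall] at hω'
        obtain ⟨k, hk, hne⟩ := hω'
        refine prod_eq_zero hk ?_
        rcases he k with h6 | h6 <;> rcases hω k with h7 | h7
        · exact absurd (h7.trans h6.symm) hne
        · rw [h6, h7]; norm_num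
        · rw [h6, h7]; norm_num
        · exact absurd (h7.trans h6.symm) hne
    rw [h4, integral_finsetSum F.powerset fun T _ =>
      (((BMs.const (∏ k ∈ T, e k)).mul (X_bm (hx m) (hx1 m) i T)).int ((μ m).restrict (E m)))]
    exact sum_congr rfl fun T _ => integral_const_mul _ _
  have h3 : ∅ ∈ F.powerset := mem_powerset.2 (empty_subset _)
  have h4 : (2 : ℝ) ^ F.card * (μ m).real (E m ∩ P) - (μ m).real (E m) =
      ∑ T ∈ F.powerset.erase ∅, (∏ k ∈ T, e k) * ∫ ω in E m, X (x m) i T ω ∂(μ m) := by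
    rw [h2, ← add_sum_erase _ _ h3]
    have h5 : ∫ ω in E m, X (x m) i ∅ ω ∂(μ m) = (μ m).real (E m) := by
      unfold X
      simp
    rw [h5, prod_empty]
    ring
  rw [h4]
  have h5 : F ⊆ Ico m (m + (F.sup id + 1)) := by
    intro k hk
    have h6 := hF k hk
    have h7 : k ≤ F.sup id := le_sup (f := id) hk
    rw [mem_Ico]
    omega
  have h6 : ∀ T : Finset ℕ, |∏ k ∈ T, e k| = 1 := fun T => by
    rw [abs_prod]
    refine prod_eq_one fun k _ => ?_
    rcases he k with h7 | h7 <;> rw [h7] <;> norm_num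
  calc |∑ T ∈ F.powerset.erase ∅, (∏ k ∈ T, e k) * ∫ ω in E m, X (x m) i T ω ∂(μ m)|
      ≤ ∑ T ∈ F.powerset.erase ∅, |∫ ω in E m, X (x m) i T ω ∂(μ m)| := by
        refine (abs_sum_le_sum_abs _ _).trans (sum_le_sum fun T _ => ?_)
        rw [abs_mul, h6, one_mul]
    _ ≤ ∑ T ∈ ((Ico m (m + (F.sup id + 1))).powerset).erase ∅,
          |∫ ω in E m, X (x m) i T ω ∂(μ m)| :=
        sum_le_sum_of_subset_of_nonneg (erase_subset_erase _ (powerset_mono.2 h5))
          fun _ _ _ => abs_nonneg _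
    _ ≤ (1 - 1 / (((F.sup id + 1 : ℕ) : ℝ) + 1)) * (δ m * (μ m).real (E m)) := hD _
    _ ≤ 1 * (δ m * (μ m).real (E m)) := by
        apply mul_le_mul_of_nonneg_right
        · have : (0 : ℝ) ≤ 1 / (((F.sup id + 1 : ℕ) : ℝ) + 1) := by positivity
          linarith
        · exact mul_nonneg (hδ m).le (hμ m).le
    _ = δ m * (μ m).real (E m) := one_mul _

end Pool.Agent.Helper38K9.SC
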