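import Pool.Agent.R512.P.PairM
import Pool.Agent.R512.G.Fur

/-!
# Logarithmic two point correlations of one aperiodic multiplicative function with values `±1` (helper38)
-/

set_option autoImplicit false

namespace Pool.Agent.Helper38K9.SC

open Finset Filter Topology
open Pool.Agent.Y958.U
open Pool.Agent.R512.P (MS pairQ)
open Pool.Agent.R512.G (NoReal)

/-- from almost all scales to logarithmic averages -/
lemma log_small (F : ℕ → ℝ) (hF : ∀ n, |F n| ≤ 1)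
    (h : ∀ ε : ℝ, 0 < ε → LZ {N : ℕ | ε * N < |∑ n ∈ Icc 1 N, F n|}) (ε : ℝ) (hε : 0 < ε) :
    ∃ X₀ : ℕ, ∀ X : ℕ, X₀ ≤ X → |∑ n ∈ Icc 1 X, F n / n| ≤ ε * Real.log X := by
  classical
  obtain ⟨E, hEd⟩ : ∃ E : Set ℕ, E = {N : ℕ | ε / 4 * N < |∑ n ∈ Icc 1 N, F n|} := ⟨_, rfl⟩
  have hE : LZ E := by rw [hEd]; exact h (ε / 4) (by positivity)
  obtain ⟨X₁, hX₁⟩ := (LZ_iff _).1 hE (ε / 4) (by positivity)
  have hlog : Tendsto (fun X : ℕ => Real.log X) atTop atTop :=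
    Real.tendsto_log_atTop.comp tendsto_natCast_atTop_atTop
  obtain ⟨X₂, hX₂⟩ := eventually_atTop.1 (hlog.eventually_ge_atTop (1 + 4 / ε))
  refine ⟨X₁ + X₂ + 2, fun X hX => ?_⟩
  have h1 := hX₁ X (by omega)
  have h2 := hX₂ X (by omega)
  have hS : ∀ N : ℕ, |∑ n ∈ Icc 1 N, F n| ≤ N := by
    intro N
    refine (abs_sum_le_sum_abs _ _).trans ((sum_le_sum fun k _ => hF _).trans (le_of_eq ?_))
    simp
  rw [abel_log]
  have h3 : |(∑ n ∈ Icc 1 X, F n) / ((X : ℝ) + 1)| ≤ 1 := by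
    rw [abs_div, abs_of_pos (by positivity : (0 : ℝ) < (X : ℝ) + 1), div_le_one (by positivity)]
    have := hS X
    linarith
  have h4 : |∑ N ∈ Icc 1 X, (∑ n ∈ Icc 1 N, F n) * (1 / ((N : ℝ) * (N + 1)))| ≤
      ε / 4 * (1 + Real.log X) + ls E X := by
    refine (abs_sum_le_sum_abs _ _).trans ?_
    have h5 : ∀ N ∈ Icc 1 X, |(∑ n ∈ Icc 1 N, F n) * (1 / ((N : ℝ) * (N + 1)))| ≤
        ε / 4 * (1 / (N : ℝ)) + li E N := by
      intro N hN
      rw [mem_Icc] at hN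
      have hN0 : (0 : ℝ) < N := by exact_mod_cast (by omega : 0 < N)
      have e1 : (0 : ℝ) < 1 / ((N : ℝ) * (N + 1)) := by positivity
      rw [abs_mul, abs_of_pos e1]
      have e2 : (N : ℝ) * (1 / ((N : ℝ) * (N + 1))) ≤ 1 / N := by
        rw [mul_one_div, div_le_div_iff₀ (by positivity) hN0]
        nlinarith
      by_cases hNE : N ∈ E
      · rw [li_mem hNE]
        have : |∑ n ∈ Icc 1 N, F n| * (1 / ((N : ℝ) * (N + 1))) ≤ N * (1 / ((N : ℝ) * (N + 1))) :=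
          mul_le_mul_of_nonneg_right (hS N) e1.le
        have h6 : 0 ≤ ε / 4 * (1 / (N : ℝ)) := by positivity
        linarith
      · rw [li_not hNE, add_zero]
        have h6 : |∑ n ∈ Icc 1 N, F n| ≤ ε / 4 * N := by
          rw [hEd] at hNE
          exact not_lt.1 hNE
        calc |∑ n ∈ Icc 1 N, F n| * (1 / ((N : ℝ) * (N + 1))) ≤ ε / 4 * N * (1 / ((N : ℝ) * (N + 1))) :=
              mul_le_mul_of_nonneg_right h6 e1.le
          _ = ε / 4 * (N * (1 / ((N : ℝ) * (N + 1)))) := by ring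
          _ ≤ ε / 4 * (1 / N) := mul_le_mul_of_nonneg_left e2 (by positivity)
    refine (sum_le_sum h5).trans ?_
    rw [sum_add_distrib, ← mul_sum, ls_eq]
    apply add_le_add _ le_rfl
    apply mul_le_mul_of_nonneg_left _ (by positivity)
    have h8 := harmonic_le_one_add_log X
    have h9 : ∑ i ∈ Icc 1 X, (1 : ℝ) / i = ((harmonic X : ℚ) : ℝ) := by
      rw [harmonic_eq_sum_Icc]
      push_cast
      apply sum_congr rfl
      intro i _
      rw [one_div]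
    rw [h9]
    exact h8
  have h10 := abs_add_le (∑ N ∈ Icc 1 X, (∑ n ∈ Icc 1 N, F n) * (1 / ((N : ℝ) * (N + 1))))
    ((∑ n ∈ Icc 1 X, F n) / ((X : ℝ) + 1))
  have h11 : ε * (1 + 4 / ε) ≤ ε * Real.log X := mul_le_mul_of_nonneg_left h2 hε.le
  have h12 : ε * (1 + 4 / ε) = ε + 4 := by field_simp
  rw [h12] at h11
  have h13 : (1 : ℝ) ≤ Real.log X := by
    have : 0 < 4 / ε := by positivity
    linarith
  nlinarith

/-- two points, logarithmic averages -/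
theorem pairLog {g : ℕ → ℤ} (hg : MS g) (hN : NoReal (fun n => (g n : ℝ))) (a c : ℕ) (hac : a ≠ c)
    (ε : ℝ) (hε : 0 < ε) :
    ∃ X₀ : ℕ, ∀ X : ℕ, X₀ ≤ X →
      |∑ n ∈ Icc 1 X, (if n = 0 then 0 else (g (n + a) : ℝ) * (g (n + c) : ℝ)) / n| ≤ ε * Real.log X := by
  refine log_small (fun n => if n = 0 then 0 else (g (n + a) : ℝ) * (g (n + c) : ℝ)) (fun n => ?_)
    (fun ε' hε' => ?_) ε hε
  · show |if n = 0 then 0 else (g (n + a) : ℝ) * (g (n + c) : ℝ)| ≤ 1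
    split_ifs with h0
    · simp
    · rcases hg.val (n + a) (by omega) with h1 | h1 <;> rcases hg.val (n + c) (by omega) with h2 | h2 <;>
        rw [h1, h2] <;> norm_num
  · refine LZ_sub (fun N hN' => ?_) (pairQ hg hN hg 1 a c le_rfl hac ε' hε')
    have h1 : ε' * N < |∑ n ∈ Icc 1 N, if n = 0 then 0 else (g (n + a) : ℝ) * (g (n + c) : ℝ)| := hN'
    show ε' * N < |∑ n ∈ Icc 1 N, (g (1 * n + a) : ℝ) * (g (1 * n + c) : ℝ)|
    have h2 : ∑ n ∈ Icc 1 N, (g (1 * n + a) : ℝ) * (g (1 * n + c) : ℝ) =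
        ∑ n ∈ Icc 1 N, if n = 0 then 0 else (g (n + a) : ℝ) * (g (n + c) : ℝ) := by
      refine sum_congr rfl fun n hn => ?_
      rw [mem_Icc] at hn
      rw [if_neg (by omega), one_mul]
    rw [h2]
    exact h1

/-- two points, logarithmic averages along a sequence of scales, for the sequence extended to all
integers -/
theorem pairZ {g : ℕ → ℤ} (hg : MS g) (hN : NoReal (fun n => (g n : ℝ))) (G : ℤ → ℝ)
    (hG1 : ∀ z, |G z| ≤ 1) (hG : ∀ n : ℕ, 1 ≤ n → G n = g n) {N : ℕ → ℕ} (hNt : Tendsto N atTop atTop)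
    (i j : ℤ) (hij : i ≠ j) :
    Tendsto (fun s => (1 / Real.log (N s : ℝ)) * ∑ n ∈ Icc 1 (N s), (1 / (n : ℝ)) *
      (G (i + n) * G (j + n))) atTop (𝓝 0) := by
  obtain ⟨s, hs⟩ : ∃ s : ℕ, s = i.natAbs + j.natAbs := ⟨_, rfl⟩
  obtain ⟨a, ha⟩ : ∃ a : ℕ, (a : ℤ) = i + s := ⟨(i + s).toNat, by omega⟩
  obtain ⟨c, hc⟩ : ∃ c : ℕ, (c : ℤ) = j + s := ⟨(j + s).toNat, by omega⟩
  have hac : a ≠ c := fun h => hij (by omega)
  obtain ⟨A, hA⟩ : ∃ A : ℤ → ℂ, A = fun z => ((G (z + a) * G (z + c) : ℝ) : ℂ) := ⟨_, rfl⟩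
  have hA1 : ∀ z, ‖A z‖ ≤ 1 := fun z => by
    rw [hA]
    simp only
    rw [Complex.norm_real, Real.norm_eq_abs, abs_mul]
    exact mul_le_one₀ (hG1 _) (abs_nonneg _) (hG1 _)
  have h0 : Tendsto (fun X : ℕ => (1 / Real.log (X : ℝ)) *
      ∑ n ∈ Icc 1 X, (if n = 0 then 0 else (g (n + a) : ℝ) * (g (n + c) : ℝ)) / n) atTop (𝓝 0) := by
    rw [Metric.tendsto_atTop]
    intro ε hε
    obtain ⟨X₀, hX₀⟩ := pairLog hg hN a c hac (ε / 2) (by positivity)
    refine ⟨X₀ + 2, fun X hX => ?_⟩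
    have h1 := hX₀ X (by omega)
    have hlog : 0 < Real.log X := Real.log_pos (by exact_mod_cast (by omega : 1 < X))
    rw [Real.dist_eq, sub_zero, abs_mul, abs_of_pos (by positivity : (0 : ℝ) < 1 / Real.log X),
      one_div, inv_mul_lt_iff₀ hlog]
    refine lt_of_le_of_lt h1 ?_
    nlinarith
  have h1 : Tendsto (fun s => ((1 / Real.log (N s : ℝ) : ℝ) : ℂ) *
      ∑ n ∈ Icc 1 (N s), A (n : ℤ) / (n : ℂ)) atTop (𝓝 0) := by
    have h2 := (Complex.continuous_ofReal.tendsto (0 : ℝ)).comp (h0.comp hNt)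
    rw [Complex.ofReal_zero] at h2
    refine h2.congr fun t => ?_
    simp only [Function.comp_apply]
    push_cast
    congr 1
    apply sum_congr rfl
    intro n hn
    rw [mem_Icc] at hn
    rw [if_neg (by omega), hA]
    simp only
    have e1 := hG (n + a) (by omega)
    have e2 := hG (n + c) (by omega)
    push_cast at e1 e2
    rw [e1, e2]
  have h2 := Pool.Agent.R512.G.log_lim_shift hNt A hA1 (-(s : ℤ)) 0 h1
  have h3 := (Complex.continuous_re.tendsto (0 : ℂ)).comp h2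
  rw [Complex.zero_re] at h3
  refine h3.congr fun t => ?_
  simp only [Function.comp_apply]
  have h4 : ((1 / Real.log (N t : ℝ) : ℝ) : ℂ) * ∑ n ∈ Icc 1 (N t), A ((n : ℤ) + -(s : ℤ)) / (n : ℂ) =
      (((1 / Real.log (N t : ℝ)) * ∑ n ∈ Icc 1 (N t), (1 / (n : ℝ)) * (G (i + n) * G (j + n)) : ℝ) : ℂ) := by
    push_cast
    congr 1
    apply sum_congr rfl
    intro n _
    rw [hA]
    simp only
    rw [show (n : ℤ) + -(s : ℤ) + a = i + n by omega, show (n : ℤ) + -(s : ℤ) + c = j + n by omega]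
    push_cast
    ring
  rw [h4, Complex.ofReal_re]

end Pool.Agent.Helper38K9.SC
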